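import Mathlib
/-!
BAPP (90 lines). Smooth approximation of a continuous map of the ball.
PROOF. f is bounded and continuous on the whole space. Convolution with a normed ContDiffBump φ of small support δ
(φ.normed volume): g x = ∫ φ(t) • f (x - t) is C^∞ (HasCompactSupport.contDiff_convolution_left, ContDiffBump.contDiff_normed,
hasCompactSupport_normed; f locally integrable), ‖g x‖ ≤ 1 (norm_integral_le with ∫ φ = 1), and ‖g x - f x‖ ≤ ε for ‖x‖ ≤ 1 if δ is such that
‖f x - f y‖ ≤ ε for ‖x‖ ≤ 1, ‖x-y‖ ≤ δ (uniform continuity on closedBall 0 2; ContDiffBump.dist_normed_convolution_le).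
(Alternatively: Stone-Weierstrass coordinatewise and division by 1+ε.)
-/
set_option autoImplicit false

open MeasureTheory Set Metric

namespace Pool.Agent.BRW

theorem approx {n : ℕ} {f : EuclideanSpace ℝ (Fin n) → EuclideanSpace ℝ (Fin n)}
    (hf : Continuous f) (hm : ∀ x, ‖f x‖ ≤ 1) {ε : ℝ} (hε : 0 < ε) :
    ∃ g : EuclideanSpace ℝ (Fin n) → EuclideanSpace ℝ (Fin n), ContDiff ℝ 1 g ∧ (∀ x, ‖g x‖ ≤ 1) ∧
      ∀ x, ‖x‖ ≤ 1 → ‖g x - f x‖ ≤ ε := by
  have hc : UniformContinuousOn f (closedBall 0 2) :=
    (isCompact_closedBall _ _).uniformContinuousOn_of_continuous hf.continuousOn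
  rw [Metric.uniformContinuousOn_iff_le] at hc
  obtain ⟨δ, hδ, h⟩ := hc ε hε
  have hη : 0 < min δ 1 := lt_min hδ one_pos
  let φ : ContDiffBump (0 : EuclideanSpace ℝ (Fin n)) :=
    ⟨min δ 1 / 2, min δ 1, half_pos hη, half_lt_self hη⟩
  refine ⟨convolution (φ.normed volume) f (ContinuousLinearMap.lsmul ℝ ℝ) volume, ?_, ?_, ?_⟩
  · exact φ.hasCompactSupport_normed.contDiff_convolution_left _
      (φ.contDiff_normed (n := 1)) hf.locallyIntegrable
  · intro x
    rw [convolution_def]
    calc ‖∫ t, (ContinuousLinearMap.lsmul ℝ ℝ) (φ.normed volume t) (f (x - t))‖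
        ≤ ∫ t, φ.normed volume t := by
          refine norm_integral_le_of_norm_le ?_ (Filter.Eventually.of_forall fun t => ?_)
          · exact (φ.contDiff_normed (n := 0)).continuous.integrable_of_hasCompactSupport
              φ.hasCompactSupport_normed
          · have h1 : 0 ≤ φ.normed volume t := φ.nonneg_normed t
            rw [ContinuousLinearMap.lsmul_apply, norm_smul, Real.norm_of_nonneg h1]
            exact mul_le_of_le_one_right h1 (hm _)
      _ = 1 := φ.integral_normed
  · intro x hx
    rw [← dist_eq_norm]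
    refine φ.dist_normed_convolution_le hf.aestronglyMeasurable ?_
    intro y hy
    have hy1 : dist y x < min δ 1 := hy
    have hy2 : dist y x < 1 := lt_of_lt_of_le hy1 (min_le_right _ _)
    have hx2 : x ∈ closedBall (0 : EuclideanSpace ℝ (Fin n)) 2 := by
      rw [mem_closedBall_zero_iff]; linarith
    have hy3 : y ∈ closedBall (0 : EuclideanSpace ℝ (Fin n)) 2 := by
      rw [mem_closedBall_zero_iff]
      have h2 : ‖y‖ ≤ ‖y - x‖ + ‖x‖ := by
        have := norm_add_le (y - x) x
        rwa [sub_add_cancel] at this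
      rw [← dist_eq_norm] at h2
      linarith
    exact h y hy3 x hx2 (lt_of_lt_of_le hy1 (min_le_left _ _)).le

end Pool.Agent.BRW
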