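import Mathlib
/-!
BDET (90 lines). Interpolation identity for determinants.
PROOF. For a matrix A the function t ↦ det (1 + t A) is the evaluation of the polynomial det (1 + X • C A) (Matrix.map C; eval commutes
with det: RingHom.map_det, Polynomial.evalRingHom) of degree ≤ n (Matrix.det_apply: each product of n entries of degree ≤ 1;
Polynomial.natDegree_det_X_add_C_le is close: X • A + B). Lagrange interpolation at the n+1 distinct nodes t_j
(Lagrange.eq_interpolate_of_eval_eq or Lagrange.eq_interpolate, degree < n+1): det (1+A) = p(1) = ∑_j p(t_j) ℓ_j(1), c_j = ℓ_j(1) =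
eval 1 (Lagrange.basis univ t j), and ∑_j ℓ_j = 1 (Lagrange.sum_basis). Second form: matrices of continuous linear maps
(ContinuousLinearMap.det = LinearMap.det = det of toMatrix in a basis; toMatrix is linear and toMatrix id = 1).
-/
set_option autoImplicit false

open MeasureTheory Set Metric

namespace Pool.Agent.BRW

private theorem det_poly_deg {n : ℕ} (A : Matrix (Fin n) (Fin n) ℝ) :
    ∃ p : Polynomial ℝ, p.natDegree ≤ n ∧ ∀ t : ℝ, p.eval t = (1 + t • A).det := by
  refine ⟨((Polynomial.X : Polynomial ℝ) • A.map Polynomial.C + (1 : Matrix (Fin n) (Fin n) ℝ).map Polynomial.C).det,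
    ?_, fun t => ?_⟩
  · have h1 := Polynomial.natDegree_det_X_add_C_le A (1 : Matrix (Fin n) (Fin n) ℝ)
    rwa [Fintype.card_fin] at h1
  · rw [← Polynomial.coe_evalRingHom, RingHom.map_det]
    congr 1
    ext i j
    simp only [RingHom.mapMatrix_apply, Matrix.map_apply, Matrix.add_apply, Matrix.smul_apply, Matrix.one_apply,
      smul_eq_mul, Polynomial.coe_evalRingHom, Polynomial.eval_add, Polynomial.eval_mul, Polynomial.eval_X,
      Polynomial.eval_C]
    split_ifs <;> simp [add_comm]

theorem det_interp {n : ℕ} (t : Fin (n + 1) → ℝ) (ht : Function.Injective t) :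
    ∃ c : Fin (n + 1) → ℝ, ∑ j, c j = 1 ∧
      ∀ A : Matrix (Fin n) (Fin n) ℝ, (1 + A).det = ∑ j, c j * (1 + t j • A).det := by
  classical
  let L : Fin (n + 1) → Polynomial ℝ := fun j => Lagrange.basis Finset.univ t j
  have hinj : Set.InjOn t ((Finset.univ : Finset (Fin (n + 1))) : Set (Fin (n + 1))) := ht.injOn
  refine ⟨fun j => (L j).eval 1, ?_, fun A => ?_⟩
  · rw [← Polynomial.eval_finsetSum]
    have h1 : ∑ j, L j = 1 := Lagrange.sum_basis hinj ⟨0, Finset.mem_univ _⟩
    rw [h1, Polynomial.eval_one]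
  · obtain ⟨p, hp, he⟩ := det_poly_deg A
    have h1 : p = Lagrange.interpolate Finset.univ t (fun j => p.eval (t j)) := by
      refine Lagrange.eq_interpolate_of_eval_eq _ hinj ?_ (fun i _ => rfl)
      rw [Finset.card_univ, Fintype.card_fin]
      refine lt_of_le_of_lt Polynomial.degree_le_natDegree ?_
      exact_mod_cast Nat.lt_succ_of_le hp
    have h2 : p.eval 1 = ∑ j, p.eval (t j) * (L j).eval 1 := by
      conv_lhs => rw [h1]
      rw [Lagrange.interpolate_apply, Polynomial.eval_finsetSum]
      refine Finset.sum_congr rfl fun j _ => ?_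
      rw [Polynomial.eval_mul, Polynomial.eval_C]
    have h3 : (1 + A).det = p.eval 1 := by rw [he, one_smul]
    rw [h3, h2]
    refine Finset.sum_congr rfl fun j _ => ?_
    rw [he, mul_comm]

theorem det_interp' {n : ℕ} (t : Fin (n + 1) → ℝ) (ht : Function.Injective t) :
    ∃ c : Fin (n + 1) → ℝ, ∑ j, c j = 1 ∧
      ∀ A : EuclideanSpace ℝ (Fin n) →L[ℝ] EuclideanSpace ℝ (Fin n),
        (ContinuousLinearMap.id ℝ _ + A).det =
          ∑ j, c j * (ContinuousLinearMap.id ℝ _ + t j • A).det := by
  obtain ⟨c, hc, h⟩ := det_interp t ht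
  refine ⟨c, hc, fun A => ?_⟩
  let b := (EuclideanSpace.basisFun (Fin n) ℝ).toBasis
  have key : ∀ B : EuclideanSpace ℝ (Fin n) →L[ℝ] EuclideanSpace ℝ (Fin n), ∀ s : ℝ,
      (ContinuousLinearMap.id ℝ _ + s • B).det =
        (1 + s • LinearMap.toMatrix b b (B : EuclideanSpace ℝ (Fin n) →ₗ[ℝ] EuclideanSpace ℝ (Fin n))).det := by
    intro B s
    have h1 : (ContinuousLinearMap.id ℝ (EuclideanSpace ℝ (Fin n)) + s • B).det =
        LinearMap.det (LinearMap.id + s • (B : EuclideanSpace ℝ (Fin n) →ₗ[ℝ] EuclideanSpace ℝ (Fin n))) := rfl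
    rw [h1, ← LinearMap.det_toMatrix b, map_add, map_smul, LinearMap.toMatrix_id]
  have h1 := key A 1
  rw [one_smul, one_smul] at h1
  rw [h1, h]
  exact Finset.sum_congr rfl fun j _ => by rw [key A (t j)]

end Pool.Agent.BRW
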