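import Mathlib
/-!
BLIP (80 lines). Extension by zero is Lipschitz.
PROOF. h x = r x - x is C¹ on an open neighbourhood of the closed ball; its derivative is bounded on the compact closed ball by K
(ContDiffOn, continuous fderivWithin = fderiv on the open set U), so h is K-Lipschitz on the closed ball (convex;
Convex.lipschitzOnWith_of_nnnorm_fderivWithin_le or hasFDerivWithin version). For x, y both outside: 0. For ‖x‖ ≤ 1 < ‖y‖ there is a point z
of norm 1 on the segment [x, y] (intermediate value theorem for s ↦ ‖x + s (y-x)‖), h z = 0, and ‖h x‖ = ‖h x - h z‖ ≤ K ‖x - z‖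
≤ K ‖x - y‖.
-/
set_option autoImplicit false

open MeasureTheory Set Metric

namespace Pool.Agent.BRW

theorem ext_lip {n : ℕ} {r : EuclideanSpace ℝ (Fin n) → EuclideanSpace ℝ (Fin n)}
    {U : Set (EuclideanSpace ℝ (Fin n))} (hU : IsOpen U) (hB : closedBall 0 1 ⊆ U)
    (hr : ContDiffOn ℝ 1 r U) (hid : ∀ x, ‖x‖ = 1 → r x = x) :
    ∃ K : NNReal, LipschitzWith K
      (fun x : EuclideanSpace ℝ (Fin n) => if ‖x‖ ≤ 1 then r x - x else 0) := by
  have hcd : ContDiffOn ℝ 1 (fun x => r x - x) (closedBall (0 : EuclideanSpace ℝ (Fin n)) 1) :=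
    (hr.mono hB).sub contDiffOn_id
  obtain ⟨K, hK⟩ := hcd.exists_lipschitzOnWith one_ne_zero (convex_closedBall _ _)
    (isCompact_closedBall (0 : EuclideanSpace ℝ (Fin n)) 1)
  have hK' : ∀ x y : EuclideanSpace ℝ (Fin n), ‖x‖ ≤ 1 → ‖y‖ ≤ 1 → ‖(r x - x) - (r y - y)‖ ≤ K * ‖x - y‖ := by
    intro x y hx hy
    have h1 := hK.dist_le_mul x (mem_closedBall_zero_iff.2 hx) y (mem_closedBall_zero_iff.2 hy)
    rwa [dist_eq_norm, dist_eq_norm] at h1
  have mixed : ∀ x y : EuclideanSpace ℝ (Fin n), ‖x‖ ≤ 1 → 1 < ‖y‖ → ‖r x - x‖ ≤ K * ‖x - y‖ := by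
    intro x y hx hy
    have hcont : ContinuousOn (fun s : ℝ => ‖x + s • (y - x)‖) (Set.Icc 0 1) := by fun_prop
    have h1 : (1 : ℝ) ∈ (fun s : ℝ => ‖x + s • (y - x)‖) '' Set.Icc 0 1 := by
      refine intermediate_value_Icc zero_le_one hcont ⟨?_, ?_⟩
      · simpa using hx
      · simpa using hy.le
    obtain ⟨s, ⟨hs0, hs1⟩, hs⟩ := h1
    have hs' : ‖x + s • (y - x)‖ = 1 := hs
    have h2 := hK' x (x + s • (y - x)) hx hs'.le
    rw [hid _ hs', sub_self, sub_zero] at h2
    refine h2.trans (mul_le_mul_of_nonneg_left ?_ K.2)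
    have h3 : x - (x + s • (y - x)) = s • (x - y) := by
      rw [smul_sub, smul_sub]
      abel
    rw [h3, norm_smul, Real.norm_of_nonneg hs0]
    have h4 := norm_nonneg (x - y)
    nlinarith
  refine ⟨K, LipschitzWith.of_dist_le_mul fun x y => ?_⟩
  rw [dist_eq_norm, dist_eq_norm]
  by_cases hx : ‖x‖ ≤ 1
  · by_cases hy : ‖y‖ ≤ 1
    · rw [if_pos hx, if_pos hy]
      exact hK' x y hx hy
    · rw [if_pos hx, if_neg hy, sub_zero]
      exact mixed x y hx (not_le.1 hy)
  · by_cases hy : ‖y‖ ≤ 1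
    · rw [if_neg hx, if_pos hy, zero_sub, norm_neg, norm_sub_rev x y]
      exact mixed y x hy (not_le.1 hx)
    · rw [if_neg hx, if_neg hy, sub_self, norm_zero]
      positivity

end Pool.Agent.BRW
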