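import Mathlib
/-!
BHOM (90 lines). Small Lipschitz perturbations of the identity.
PROOF. φ x = x + t • k x. Injective: ‖φ x - φ y‖ ≥ ‖x-y‖ - t K ‖x-y‖. Surjective: for y the map x ↦ y - t • k x is a contraction of a
complete space (ContractingWith, fixed point). φ = id outside the open unit ball (k = 0 for ‖x‖ ≥ 1). If ‖x‖ < 1 and ‖φ x‖ ≥ 1,
then φ (φ x) = φ x and injectivity gives φ x = x, contradiction. If ‖y‖ < 1 and φ x = y then ‖x‖ < 1 (otherwise φ x = x = y).
-/
set_option autoImplicit false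

open MeasureTheory Set Metric

namespace Pool.Agent.BRW

theorem pert_inj {n : ℕ} {k : EuclideanSpace ℝ (Fin n) → EuclideanSpace ℝ (Fin n)} {K : NNReal}
    (hk : LipschitzWith K k) {t : ℝ} (ht : 0 ≤ t) (htK : t * K < 1) :
    Function.Injective (fun x => x + t • k x) := by
  intro x y hxy
  have h1 : x + t • k x = y + t • k y := hxy
  have h2 : x - y = t • (k y - k x) := by
    rw [smul_sub]
    have h3 : x - y = (x + t • k x) - t • k x - y := by abel
    rw [h3, h1]
    abel
  by_contra hne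
  have h3 : 0 < ‖x - y‖ := norm_pos_iff.2 (sub_ne_zero.2 hne)
  have h4 : ‖k y - k x‖ ≤ K * ‖y - x‖ := by
    have := hk.dist_le_mul y x
    rwa [dist_eq_norm, dist_eq_norm] at this
  have h5 : ‖x - y‖ ≤ t * K * ‖x - y‖ := by
    calc ‖x - y‖ = t * ‖k y - k x‖ := by rw [h2, norm_smul, Real.norm_of_nonneg ht]
      _ ≤ t * (K * ‖y - x‖) := mul_le_mul_of_nonneg_left h4 ht
      _ = t * K * ‖x - y‖ := by rw [norm_sub_rev]; ring
  nlinarith

private theorem pert_surj {n : ℕ} {k : EuclideanSpace ℝ (Fin n) → EuclideanSpace ℝ (Fin n)} {K : NNReal}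
    (hk : LipschitzWith K k) {t : ℝ} (ht : 0 ≤ t) (htK : t * K < 1) (y : EuclideanSpace ℝ (Fin n)) :
    ∃ x, x + t • k x = y := by
  have hK : ContractingWith (⟨t, ht⟩ * K) (fun x => y - t • k x) := by
    refine ⟨?_, ?_⟩
    · rw [← NNReal.coe_lt_coe]
      exact htK
    · refine LipschitzWith.of_dist_le_mul fun x z => ?_
      rw [dist_eq_norm, dist_eq_norm]
      have h1 : y - t • k x - (y - t • k z) = t • (k z - k x) := by
        rw [smul_sub]
        abel
      have h2 : ‖k z - k x‖ ≤ K * ‖z - x‖ := by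
        have := hk.dist_le_mul z x
        rwa [dist_eq_norm, dist_eq_norm] at this
      rw [h1, norm_smul, Real.norm_of_nonneg ht]
      calc t * ‖k z - k x‖ ≤ t * (K * ‖z - x‖) := mul_le_mul_of_nonneg_left h2 ht
        _ = t * K * ‖x - z‖ := by rw [norm_sub_rev]; ring
  refine ⟨ContractingWith.fixedPoint _ hK, ?_⟩
  have h1 := hK.fixedPoint_isFixedPt
  have h2 : y - t • k (ContractingWith.fixedPoint _ hK) = ContractingWith.fixedPoint _ hK := h1
  nth_rw 1 [← h2]
  abel

theorem pert_image {n : ℕ} {k : EuclideanSpace ℝ (Fin n) → EuclideanSpace ℝ (Fin n)} {K : NNReal}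
    (hk : LipschitzWith K k) (h0 : ∀ x, 1 ≤ ‖x‖ → k x = 0) {t : ℝ} (ht : 0 ≤ t) (htK : t * K < 1) :
    (fun x => x + t • k x) '' (ball (0 : EuclideanSpace ℝ (Fin n)) 1) = ball 0 1 := by
  have hinj := pert_inj hk ht htK
  have hout : ∀ x, 1 ≤ ‖x‖ → x + t • k x = x := by
    intro x hx
    rw [h0 x hx, smul_zero, add_zero]
  ext y
  rw [mem_ball_zero_iff]
  constructor
  · rintro ⟨x, hx, rfl⟩
    rw [mem_ball_zero_iff] at hx
    by_contra hcon
    rw [not_lt] at hcon
    have h1 := hinj (hout (x + t • k x) hcon)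
    have h2 : 1 ≤ ‖x‖ := by
      simp only at h1 hcon
      rwa [h1] at hcon
    linarith
  · intro hy
    obtain ⟨x, hx⟩ := pert_surj hk ht htK y
    refine ⟨x, ?_, hx⟩
    rw [mem_ball_zero_iff]
    by_contra hcon
    rw [not_lt] at hcon
    rw [hout x hcon] at hx
    rw [hx] at hcon
    linarith

end Pool.Agent.BRW
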