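import Mathlib
import Pool.Agent.BRW.BHOM
/-!
BVOL (100 lines). Volume of the ball by the change of variables formula.
PROOF. On the open unit ball the map φ = id + t k has derivative id + t • k' where k' x = fderiv ℝ k x (hypothesis hd). φ is injective and
φ '' ball = ball (BHOM). MeasureTheory.integral_image_eq_integral_abs_det_fderiv_smul (or lintegral_abs_det_fderiv_eq_addHaar_image) with the
constant function 1: vol(ball) = ∫ over ball of |det (id + t k' x)|. The determinant is positive: ‖k' x‖ ≤ K (Lipschitz: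
norm_fderiv_le_of_lipschitz), so for s in [0,t] id + s k' x is injective (‖s k' x‖ < 1), hence det ≠ 0, det is continuous in s and equals 1
at s = 0 (intermediate value theorem).
-/
set_option autoImplicit false

open MeasureTheory Set Metric

namespace Pool.Agent.BRW

private theorem BVOL_det_pos {n : ℕ} {L : EuclideanSpace ℝ (Fin n) →L[ℝ] EuclideanSpace ℝ (Fin n)} {K t : ℝ}
    (hK0 : 0 ≤ K) (hL : ‖L‖ ≤ K) (ht : 0 ≤ t) (htK : t * K < 1) :
    0 < (ContinuousLinearMap.id ℝ (EuclideanSpace ℝ (Fin n)) + t • L).det := by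
  have hcont : Continuous (fun s : ℝ =>
      (ContinuousLinearMap.id ℝ (EuclideanSpace ℝ (Fin n)) + s • L).det) :=
    ContinuousLinearMap.continuous_det.comp (continuous_const.add (continuous_id.smul continuous_const))
  have hne : ∀ s : ℝ, 0 ≤ s → s ≤ t →
      (ContinuousLinearMap.id ℝ (EuclideanSpace ℝ (Fin n)) + s • L).det ≠ 0 := by
    intro s hs hst h0
    have hker := LinearMap.bot_lt_ker_of_det_eq_zero h0
    obtain ⟨v, hv, hv0⟩ := SetLike.exists_of_lt hker
    have hv1 : v + s • L v = 0 := hv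
    have hv2 : v ≠ 0 := fun h => hv0 (by rw [h]; exact Submodule.zero_mem _)
    have hv3 : v = -(s • L v) := eq_neg_of_add_eq_zero_left hv1
    have hv4 : ‖v‖ ≤ s * (K * ‖v‖) := by
      calc ‖v‖ = ‖s • L v‖ := by
            conv_lhs => rw [hv3]
            rw [norm_neg]
        _ = s * ‖L v‖ := by rw [norm_smul, Real.norm_of_nonneg hs]
        _ ≤ s * (K * ‖v‖) := mul_le_mul_of_nonneg_left (L.le_of_opNorm_le hL v) hs
    have hv5 : 0 < ‖v‖ := norm_pos_iff.mpr hv2
    have hsK : s * K < 1 := lt_of_le_of_lt (mul_le_mul_of_nonneg_right hst hK0) htK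
    nlinarith
  by_contra hneg
  rw [not_lt] at hneg
  have h1 : (ContinuousLinearMap.id ℝ (EuclideanSpace ℝ (Fin n)) + (0 : ℝ) • L).det = 1 := by
    have h2 : ContinuousLinearMap.id ℝ (EuclideanSpace ℝ (Fin n)) + (0 : ℝ) • L =
        ContinuousLinearMap.id ℝ (EuclideanSpace ℝ (Fin n)) := by
      ext1 v
      simp
    rw [h2]
    exact LinearMap.det_id
  obtain ⟨s, hs, hs0⟩ := intermediate_value_Icc' ht hcont.continuousOn
    (show (0 : ℝ) ∈ Icc _ _ from ⟨hneg, by rw [h1]; exact zero_le_one⟩)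
  exact hne s hs.1 hs.2 hs0

theorem vol_small {n : ℕ} {k : EuclideanSpace ℝ (Fin n) → EuclideanSpace ℝ (Fin n)} {K : NNReal}
    (hk : LipschitzWith K k) (h0 : ∀ x, 1 ≤ ‖x‖ → k x = 0)
    (hd : ∀ x, ‖x‖ < 1 → DifferentiableAt ℝ k x) {t : ℝ} (ht : 0 ≤ t) (htK : t * K < 1) :
    ∫ x in ball (0 : EuclideanSpace ℝ (Fin n)) 1,
        (ContinuousLinearMap.id ℝ (EuclideanSpace ℝ (Fin n)) + t • fderiv ℝ k x).det =
      (volume (ball (0 : EuclideanSpace ℝ (Fin n)) 1)).toReal := by
  have hf' : ∀ x ∈ ball (0 : EuclideanSpace ℝ (Fin n)) 1, HasFDerivWithinAt (fun x => x + t • k x)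
      (ContinuousLinearMap.id ℝ (EuclideanSpace ℝ (Fin n)) + t • fderiv ℝ k x)
      (ball (0 : EuclideanSpace ℝ (Fin n)) 1) x := by
    intro x hx
    rw [mem_ball_zero_iff] at hx
    exact ((hasFDerivAt_id x).add ((hd x hx).hasFDerivAt.const_smul t)).hasFDerivWithinAt
  have h1 := integral_image_eq_integral_abs_det_fderiv_smul volume measurableSet_ball hf'
    (pert_inj hk ht htK).injOn (fun _ => (1 : ℝ))
  rw [pert_image hk h0 ht htK, setIntegral_const, smul_eq_mul, mul_one] at h1
  rw [Measure.real] at h1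
  rw [h1]
  refine setIntegral_congr_fun measurableSet_ball fun x _ => ?_
  have hpos := BVOL_det_pos (L := fderiv ℝ k x) (t := t) K.2 (norm_fderiv_le_of_lipschitz ℝ hk) ht htK
  simp only [smul_eq_mul, mul_one]
  rw [abs_of_pos hpos]

end Pool.Agent.BRW
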