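import Mathlib
import Pool.Agent.BRW.BDET
import Pool.Agent.BRW.BLIP
import Pool.Agent.BRW.BVOL
/-!
BNOR (120 lines). No C¹ retraction of the ball onto the sphere (Milnor, Rogers).
PROOF. k x = if ‖x‖ ≤ 1 then r x - x else 0, K from ext_lip; k = 0 for ‖x‖ ≥ 1 (hid). On the open ball k = r - id near x, so k is
differentiable with fderiv k x = fderiv r x - id, continuous in x on the ball and bounded by K (so the determinants below are integrable:
continuous on the ball, bounded). Nodes t_j = (j+1)/((n+2)(K+1)), distinct, 0 ≤ t_j, t_j K < 1. By det_interp' and vol_small (integral of a finite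
sum): ∫ over ball det (id + k') = ∑ c_j vol(ball) = vol(ball) > 0. But det (id + k' x) = det (fderiv r x) = 0 on the open ball:
differentiate ‖r y‖² = 1: <r x, (fderiv r x) v> = 0 for all v, r x ≠ 0, so fderiv r x is not surjective, det = 0.
-/
set_option autoImplicit false

open MeasureTheory Set Metric

namespace Pool.Agent.BRW

theorem no_retraction {n : ℕ} {r : EuclideanSpace ℝ (Fin n) → EuclideanSpace ℝ (Fin n)}
    {U : Set (EuclideanSpace ℝ (Fin n))} (hU : IsOpen U) (hB : closedBall 0 1 ⊆ U)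
    (hr : ContDiffOn ℝ 1 r U) (hn : ∀ x, ‖x‖ ≤ 1 → ‖r x‖ = 1) (hid : ∀ x, ‖x‖ = 1 → r x = x) :
    False := by
  classical
  rcases Nat.eq_zero_or_pos n with hn0 | hpos
  · subst hn0
    have h1 := hn 0 (by simp)
    have h2 : r 0 = 0 := Subsingleton.elim _ _
    rw [h2, norm_zero] at h1
    norm_num at h1
  obtain ⟨K, hK⟩ := ext_lip hU hB hr hid
  set k : EuclideanSpace ℝ (Fin n) → EuclideanSpace ℝ (Fin n) :=
    fun x => if ‖x‖ ≤ 1 then r x - x else 0 with hkdef
  have h0 : ∀ x, 1 ≤ ‖x‖ → k x = 0 := by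
    intro x hx
    by_cases h : ‖x‖ ≤ 1
    · have h1 : ‖x‖ = 1 := le_antisymm h hx
      simp [hkdef, h, hid x h1]
    · simp [hkdef, h]
  have hrd : ∀ x, ‖x‖ < 1 → DifferentiableAt ℝ r x := fun x hx =>
    (hr.contDiffAt (hU.mem_nhds (hB (by simp [hx.le])))).differentiableAt (by norm_num)
  have hkd : ∀ x, ‖x‖ < 1 →
      HasFDerivAt k (fderiv ℝ r x - ContinuousLinearMap.id ℝ _) x := by
    intro x hx
    have h1 : HasFDerivAt (fun y => r y - y) (fderiv ℝ r x - ContinuousLinearMap.id ℝ _) x :=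
      (hrd x hx).hasFDerivAt.sub (hasFDerivAt_id x)
    refine h1.congr_of_eventuallyEq ?_
    have h2 : ball (0 : EuclideanSpace ℝ (Fin n)) 1 ∈ nhds x :=
      isOpen_ball.mem_nhds (by simpa using hx)
    filter_upwards [h2] with y hy
    have h3 : ‖y‖ ≤ 1 := (mem_ball_zero_iff.1 hy).le
    simp [hkdef, h3]
  have hfk : ∀ x, ‖x‖ < 1 → fderiv ℝ k x = fderiv ℝ r x - ContinuousLinearMap.id ℝ _ :=
    fun x hx => (hkd x hx).fderiv
  let t : Fin (n + 1) → ℝ := fun j => ((j : ℕ) + 1 : ℝ) / ((n + 2) * ((K : ℝ) + 1))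
  have hK0 : (0 : ℝ) ≤ K := K.2
  have hden : (0 : ℝ) < (n + 2) * ((K : ℝ) + 1) := by positivity
  have ht : Function.Injective t := by
    intro i j hij
    have h1 : ((i : ℕ) + 1 : ℝ) / ((n + 2) * ((K : ℝ) + 1)) =
      ((j : ℕ) + 1 : ℝ) / ((n + 2) * ((K : ℝ) + 1)) := hij
    rw [div_left_inj' hden.ne'] at h1
    have h2 : ((i : ℕ) : ℝ) = ((j : ℕ) : ℝ) := by linarith
    exact Fin.ext (by exact_mod_cast h2)
  have ht0 : ∀ j, 0 ≤ t j := fun j => by
    show (0 : ℝ) ≤ ((j : ℕ) + 1 : ℝ) / ((n + 2) * ((K : ℝ) + 1))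
    positivity
  have htK : ∀ j, t j * K < 1 := by
    intro j
    show ((j : ℕ) + 1 : ℝ) / ((n + 2) * ((K : ℝ) + 1)) * K < 1
    rw [div_mul_eq_mul_div, div_lt_one hden]
    have h1 : ((j : ℕ) : ℝ) + 1 ≤ n + 1 := by
      have h2 : (j : ℕ) ≤ n := Nat.lt_succ_iff.1 j.2
      have h3 : ((j : ℕ) : ℝ) ≤ n := by exact_mod_cast h2
      linarith
    have hn1 : (0 : ℝ) ≤ n := Nat.cast_nonneg n
    nlinarith
  obtain ⟨c, hc1, hc2⟩ := det_interp' t ht
  -- integrability
  have hcont : ∀ s : ℝ, IntegrableOn (fun x =>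
      (ContinuousLinearMap.id ℝ (EuclideanSpace ℝ (Fin n)) + s • fderiv ℝ k x).det)
      (ball (0 : EuclideanSpace ℝ (Fin n)) 1) volume := by
    intro s
    have h1 : ContinuousOn (fun x => (ContinuousLinearMap.id ℝ (EuclideanSpace ℝ (Fin n)) +
        s • (fderiv ℝ r x - ContinuousLinearMap.id ℝ _)).det)
        (closedBall (0 : EuclideanSpace ℝ (Fin n)) 1) := by
      have h2 : ContinuousOn (fun x => fderiv ℝ r x) (closedBall 0 1) :=
        (hr.continuousOn_fderiv_of_isOpen hU le_rfl).mono hB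
      refine ContinuousLinearMap.continuous_det.comp_continuousOn ?_
      have h4 : Continuous (fun A : EuclideanSpace ℝ (Fin n) →L[ℝ] EuclideanSpace ℝ (Fin n) =>
          ContinuousLinearMap.id ℝ (EuclideanSpace ℝ (Fin n)) +
            s • (A - ContinuousLinearMap.id ℝ _)) := by fun_prop
      exact h4.comp_continuousOn h2
    have h2 := h1.integrableOn_compact (μ := volume) (isCompact_closedBall _ _)
    have h3 := h2.mono_set (ball_subset_closedBall (x := (0 : EuclideanSpace ℝ (Fin n))) (ε := 1))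
    refine h3.congr_fun ?_ measurableSet_ball
    intro x hx
    simp only [hfk x (mem_ball_zero_iff.1 hx)]
  have hI : ∫ x in ball (0 : EuclideanSpace ℝ (Fin n)) 1,
      (ContinuousLinearMap.id ℝ (EuclideanSpace ℝ (Fin n)) + fderiv ℝ k x).det =
      (volume (ball (0 : EuclideanSpace ℝ (Fin n)) 1)).toReal := by
    have h1 : ∀ x : EuclideanSpace ℝ (Fin n),
        (ContinuousLinearMap.id ℝ (EuclideanSpace ℝ (Fin n)) + fderiv ℝ k x).det =
        ∑ j, c j * (ContinuousLinearMap.id ℝ _ + t j • fderiv ℝ k x).det := fun x => hc2 _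
    simp only [h1]
    rw [integral_finsetSum _ (fun j _ => (hcont (t j)).const_mul (c j))]
    simp only [integral_const_mul]
    have h2 : ∀ j, ∫ x in ball (0 : EuclideanSpace ℝ (Fin n)) 1,
        (ContinuousLinearMap.id ℝ (EuclideanSpace ℝ (Fin n)) + t j • fderiv ℝ k x).det =
        (volume (ball (0 : EuclideanSpace ℝ (Fin n)) 1)).toReal := fun j =>
      vol_small hK h0 (fun x hx => (hkd x hx).differentiableAt) (ht0 j) (htK j)
    simp only [h2]
    rw [← Finset.sum_mul, hc1, one_mul]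
  have hz : ∀ x ∈ ball (0 : EuclideanSpace ℝ (Fin n)) 1,
      (ContinuousLinearMap.id ℝ (EuclideanSpace ℝ (Fin n)) + fderiv ℝ k x).det = 0 := by
    intro x hx
    have hx1 : ‖x‖ < 1 := mem_ball_zero_iff.1 hx
    rw [hfk x hx1, add_sub_cancel]
    by_contra hdet
    have hsq : HasFDerivAt (fun y => ‖r y‖ ^ 2) (2 • (innerSL ℝ (r x)).comp (fderiv ℝ r x)) x :=
      (hrd x hx1).hasFDerivAt.norm_sq
    have hcst : HasFDerivAt (fun y => ‖r y‖ ^ 2)
        (0 : EuclideanSpace ℝ (Fin n) →L[ℝ] ℝ) x := by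
      refine (hasFDerivAt_const (1 : ℝ) x).congr_of_eventuallyEq ?_
      have h2 : ball (0 : EuclideanSpace ℝ (Fin n)) 1 ∈ nhds x := isOpen_ball.mem_nhds hx
      filter_upwards [h2] with y hy
      rw [hn y (mem_ball_zero_iff.1 hy).le, one_pow]
    have heq := hsq.unique hcst
    have hsurj : Function.Surjective (fderiv ℝ r x) := by
      have hu : IsUnit ((fderiv ℝ r x : EuclideanSpace ℝ (Fin n) →L[ℝ] EuclideanSpace ℝ (Fin n)) :
          EuclideanSpace ℝ (Fin n) →ₗ[ℝ] EuclideanSpace ℝ (Fin n)) := by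
        rw [LinearMap.isUnit_iff_isUnit_det]
        exact isUnit_iff_ne_zero.2 hdet
      exact (Module.End.isUnit_iff _).1 hu |>.2
    obtain ⟨v, hv⟩ := hsurj (r x)
    have h3 := congrArg (fun L : EuclideanSpace ℝ (Fin n) →L[ℝ] ℝ => L v) heq
    simp [hv] at h3
    have h4 := hn x hx1.le
    rw [h3, norm_zero] at h4
    norm_num at h4
  rw [setIntegral_congr_fun measurableSet_ball hz] at hI
  simp only [integral_zero] at hI
  have hvp : 0 < (volume (ball (0 : EuclideanSpace ℝ (Fin n)) 1)).toReal :=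
    ENNReal.toReal_pos (measure_ball_pos volume _ one_pos).ne' measure_ball_lt_top.ne
  linarith

end Pool.Agent.BRW
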