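import Mathlib
import Pool.Agent.BRW.BNOR
/-!
BRET (100 lines). Smooth maps of the ball have fixed points.
PROOF. Suppose g x ≠ x for ‖x‖ ≤ 1. u = x - g x, D = <x,u>² + ‖u‖² (1 - ‖x‖²), λ = (-<x,u> + √D)/‖u‖², r x = x + λ u:
‖r x‖² = ‖x‖² + 2λ<x,u> + λ²‖u‖² = 1 (λ is a root of ‖u‖²λ² + 2<x,u>λ - (1-‖x‖²) = 0). On the closed ball D > 0: clear for ‖x‖ < 1 (u ≠ 0);
for ‖x‖ = 1: <x,u> = 1 - <x,g x> ≥ 0 with equality iff g x = x (Cauchy-Schwarz with ‖g x‖ ≤ 1: ‖x - g x‖² = 1 - 2<x,g x> + ‖g x‖² ≤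
2 (1 - <x, g x>)), so <x,u> > 0, D = <x,u>², λ = 0, r x = x. U = {x | g x ≠ x ∧ 0 < D x} is open, contains the closed ball, and r is
C¹ on it (ContDiffOn: inner, norm_sq, sqrt off 0, division). no_retraction.
-/
set_option autoImplicit false

open MeasureTheory Set Metric

namespace Pool.Agent.BRW

theorem smooth_fixed {n : ℕ} {g : EuclideanSpace ℝ (Fin n) → EuclideanSpace ℝ (Fin n)}
    (hg : ContDiff ℝ 1 g) (hm : ∀ x, ‖x‖ ≤ 1 → ‖g x‖ ≤ 1) : ∃ x, ‖x‖ ≤ 1 ∧ g x = x := by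
  by_contra hne
  push Not at hne
  have hu : ContDiff ℝ 1 (fun x => x - g x) := contDiff_id.sub hg
  have hin : ContDiff ℝ 1 (fun x => inner ℝ x (x - g x)) := contDiff_id.inner ℝ hu
  have hns : ContDiff ℝ 1 (fun x => ‖x - g x‖ ^ 2) := hu.norm_sq ℝ
  have hDc : ContDiff ℝ 1 (fun x => (inner ℝ x (x - g x)) ^ 2 + ‖x - g x‖ ^ 2 * (1 - ‖x‖ ^ 2)) :=
    (hin.pow 2).add (hns.mul (contDiff_const.sub (contDiff_id.norm_sq ℝ)))
  have hupos : ∀ x, g x ≠ x → 0 < ‖x - g x‖ ^ 2 := by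
    intro x hx
    have : 0 < ‖x - g x‖ := norm_pos_iff.2 (sub_ne_zero.2 (Ne.symm hx))
    positivity
  have hkey : ∀ x, ‖x‖ = 1 → 0 < inner ℝ x (x - g x) := by
    intro x hx
    have h1 := hupos x (hne x hx.le)
    have h2 : ‖x - g x‖ ^ 2 = ‖x‖ ^ 2 - 2 * inner ℝ x (g x) + ‖g x‖ ^ 2 := by
      rw [norm_sub_sq_real]
    have h3 : ‖g x‖ ^ 2 ≤ 1 := by
      have := hm x hx.le
      nlinarith [norm_nonneg (g x)]
    rw [inner_sub_right, real_inner_self_eq_norm_sq, hx]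
    rw [hx] at h2
    nlinarith
  have hpos : ∀ x, ‖x‖ ≤ 1 → 0 < (inner ℝ x (x - g x)) ^ 2 + ‖x - g x‖ ^ 2 * (1 - ‖x‖ ^ 2) := by
    intro x hx
    have h1 := hupos x (hne x hx)
    rcases hx.lt_or_eq with h | h
    · have h4 : 0 < 1 - ‖x‖ ^ 2 := by nlinarith [norm_nonneg x]
      have := mul_pos h1 h4
      nlinarith [sq_nonneg (inner ℝ x (x - g x) : ℝ)]
    · have := hkey x h
      rw [h]
      have : 0 < (inner ℝ x (x - g x) : ℝ) ^ 2 := by positivity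
      linarith
  refine no_retraction
    (r := fun x => x + ((-(inner ℝ x (x - g x)) + Real.sqrt ((inner ℝ x (x - g x)) ^ 2
      + ‖x - g x‖ ^ 2 * (1 - ‖x‖ ^ 2))) / ‖x - g x‖ ^ 2) • (x - g x))
    (U := {x | g x ≠ x ∧ 0 < (inner ℝ x (x - g x)) ^ 2 + ‖x - g x‖ ^ 2 * (1 - ‖x‖ ^ 2)})
    ?_ ?_ ?_ ?_ ?_
  · exact (isOpen_ne_fun hg.continuous continuous_id).inter
      (isOpen_lt continuous_const hDc.continuous)
  · intro x hx
    have hx' : ‖x‖ ≤ 1 := by simpa using hx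
    exact ⟨hne x hx', hpos x hx'⟩
  · have hsq : ContDiffOn ℝ 1 (fun x => Real.sqrt ((inner ℝ x (x - g x)) ^ 2
        + ‖x - g x‖ ^ 2 * (1 - ‖x‖ ^ 2)))
        {x | g x ≠ x ∧ 0 < (inner ℝ x (x - g x)) ^ 2 + ‖x - g x‖ ^ 2 * (1 - ‖x‖ ^ 2)} :=
      hDc.contDiffOn.sqrt fun x hx => hx.2.ne'
    have hlam := (hin.contDiffOn.neg.add hsq).div hns.contDiffOn
      (fun x hx => (hupos x hx.1).ne')
    exact contDiff_id.contDiffOn.add (hlam.smul hu.contDiffOn)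
  · intro x hx
    have h1 := hupos x (hne x hx)
    have h2 := hpos x hx
    set b : ℝ := inner ℝ x (x - g x) with hb
    set s : ℝ := Real.sqrt (b ^ 2 + ‖x - g x‖ ^ 2 * (1 - ‖x‖ ^ 2)) with hs
    have hs2 : s ^ 2 = b ^ 2 + ‖x - g x‖ ^ 2 * (1 - ‖x‖ ^ 2) := Real.sq_sqrt h2.le
    have h3 : ‖x + ((-b + s) / ‖x - g x‖ ^ 2) • (x - g x)‖ ^ 2 = 1 := by
      rw [norm_add_sq_real, inner_smul_right, norm_smul, mul_pow, ← hb, Real.norm_eq_abs,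
        sq_abs]
      have h6 : (-b + s) / ‖x - g x‖ ^ 2 * ‖x - g x‖ ^ 2 = -b + s := div_mul_cancel₀ _ h1.ne'
      generalize (-b + s) / ‖x - g x‖ ^ 2 = l at h6 ⊢
      have h7 : ‖x - g x‖ ^ 2 * (‖x‖ ^ 2 + 2 * (l * b) + l ^ 2 * ‖x - g x‖ ^ 2 - 1) = 0 := by
        have e : ‖x - g x‖ ^ 2 * (‖x‖ ^ 2 + 2 * (l * b) + l ^ 2 * ‖x - g x‖ ^ 2 - 1)
            = 2 * b * (l * ‖x - g x‖ ^ 2) + (l * ‖x - g x‖ ^ 2) ^ 2
              - ‖x - g x‖ ^ 2 * (1 - ‖x‖ ^ 2) := by ring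
        rw [e, h6]
        linear_combination hs2
      have h8 := (mul_eq_zero.1 h7).resolve_left h1.ne'
      linarith
    have h5 : 0 ≤ ‖x + ((-b + s) / ‖x - g x‖ ^ 2) • (x - g x)‖ := norm_nonneg _
    nlinarith [h3, h5]
  · intro x hx
    have h1 := hkey x hx
    have h2 : Real.sqrt ((inner ℝ x (x - g x)) ^ 2 + ‖x - g x‖ ^ 2 * (1 - ‖x‖ ^ 2))
        = inner ℝ x (x - g x) := by
      rw [hx]
      simp [Real.sqrt_sq h1.le]
    simp only [h2]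
    simp

end Pool.Agent.BRW
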