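import Mathlib
import Pool.Agent.BRW.BRET
import Pool.Agent.BRW.BAPP
/-!
BFIX (70 lines). Brouwer's fixed point theorem for closed balls.
PROOF. M = 1 first. Extend: F x = f (x / max 1 ‖x‖), continuous on the whole space with ‖F x‖ ≤ 1. If f had no fixed point, compactness gives ε > 0 with
‖f x - x‖ ≥ 2ε on the closed ball; take g from approx with ε, smooth_fixed gives ‖x‖ ≤ 1, g x = x, so ‖f x - x‖ ≤ ε, contradiction. General M > 0:
scale, x ↦ M⁻¹ f (M x). M = 0: the point 0.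
-/
set_option autoImplicit false

open MeasureTheory Set Metric

namespace Pool.Agent.BRW

private theorem bfix_unit {n : ℕ} {f : EuclideanSpace ℝ (Fin n) → EuclideanSpace ℝ (Fin n)}
    (hf : ContinuousOn f (closedBall 0 1)) (hm : MapsTo f (closedBall 0 1) (closedBall 0 1)) :
    ∃ x ∈ closedBall (0 : EuclideanSpace ℝ (Fin n)) 1, f x = x := by
  by_contra hne
  push Not at hne
  have hρc : Continuous fun x : EuclideanSpace ℝ (Fin n) => (max 1 ‖x‖)⁻¹ • x := by
    refine Continuous.smul (Continuous.inv₀ (continuous_const.max continuous_norm) fun x => ?_) continuous_id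
    exact (lt_of_lt_of_le one_pos (le_max_left 1 ‖x‖)).ne'
  have hρm : ∀ x : EuclideanSpace ℝ (Fin n), (max 1 ‖x‖)⁻¹ • x ∈ closedBall (0 : EuclideanSpace ℝ (Fin n)) 1 := by
    intro x
    have h0 : 0 < max 1 ‖x‖ := lt_of_lt_of_le one_pos (le_max_left 1 ‖x‖)
    rw [mem_closedBall_zero_iff, norm_smul, norm_inv, Real.norm_eq_abs, abs_of_pos h0,
      inv_mul_le_iff₀ h0, mul_one]
    exact le_max_right 1 ‖x‖
  have hρi : ∀ x : EuclideanSpace ℝ (Fin n), ‖x‖ ≤ 1 → (max 1 ‖x‖)⁻¹ • x = x := by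
    intro x hx
    rw [max_eq_left hx, inv_one, one_smul]
  have hFc : Continuous fun x : EuclideanSpace ℝ (Fin n) => f ((max 1 ‖x‖)⁻¹ • x) :=
    hf.comp_continuous hρc hρm
  have hFm : ∀ x : EuclideanSpace ℝ (Fin n), ‖f ((max 1 ‖x‖)⁻¹ • x)‖ ≤ 1 := fun x =>
    mem_closedBall_zero_iff.1 (hm (hρm x))
  obtain ⟨x0, hx0, hmin⟩ := (isCompact_closedBall (0 : EuclideanSpace ℝ (Fin n)) 1).exists_isMinOn
    ⟨0, mem_closedBall_self zero_le_one⟩ (f := fun x => ‖f ((max 1 ‖x‖)⁻¹ • x) - x‖)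
    (hFc.sub continuous_id).norm.continuousOn
  have hpos : 0 < ‖f ((max 1 ‖x0‖)⁻¹ • x0) - x0‖ := by
    rw [hρi x0 (mem_closedBall_zero_iff.1 hx0)]
    exact norm_pos_iff.2 (sub_ne_zero.2 (hne x0 hx0))
  obtain ⟨g, hg, hg1, hg2⟩ := approx hFc hFm (half_pos hpos)
  obtain ⟨x, hx, hgx⟩ := smooth_fixed hg fun x _ => hg1 x
  have h1 := hg2 x hx
  have h2 := (isMinOn_iff.1 hmin) x (mem_closedBall_zero_iff.2 hx)
  have h2 : ‖f ((max 1 ‖x0‖)⁻¹ • x0) - x0‖ ≤ ‖f ((max 1 ‖x‖)⁻¹ • x) - x‖ := h2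
  rw [hgx, norm_sub_rev] at h1
  linarith

/-- Brouwer's fixed point theorem -/
theorem brouwer {n : ℕ} {f : EuclideanSpace ℝ (Fin n) → EuclideanSpace ℝ (Fin n)} {M : ℝ} (hM : 0 ≤ M)
    (hf : ContinuousOn f (closedBall 0 M)) (hm : MapsTo f (closedBall 0 M) (closedBall 0 M)) :
    ∃ x ∈ closedBall (0 : EuclideanSpace ℝ (Fin n)) M, f x = x := by
  rcases hM.eq_or_lt with rfl | hM
  · refine ⟨0, mem_closedBall_self le_rfl, ?_⟩
    have h1 := hm (mem_closedBall_self (x := (0 : EuclideanSpace ℝ (Fin n))) (le_refl (0 : ℝ)))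
    rwa [closedBall_zero, mem_singleton_iff] at h1
  · have hmaps : MapsTo (fun x : EuclideanSpace ℝ (Fin n) => M • x) (closedBall 0 1) (closedBall 0 M) := by
      intro x hx
      rw [mem_closedBall_zero_iff] at hx ⊢
      rw [norm_smul, Real.norm_eq_abs, abs_of_pos hM]
      nlinarith
    obtain ⟨x, hx, hfx⟩ := bfix_unit (f := fun x => M⁻¹ • f (M • x))
      ((hf.comp (continuous_const_smul M).continuousOn hmaps).const_smul M⁻¹) (by
        intro x hx
        have h1 := hm (hmaps hx)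
        rw [mem_closedBall_zero_iff] at h1 ⊢
        rw [norm_smul, norm_inv, Real.norm_eq_abs, abs_of_pos hM, inv_mul_le_iff₀ hM, mul_one]
        exact h1)
    refine ⟨M • x, hmaps hx, ?_⟩
    have h2 : M • (M⁻¹ • f (M • x)) = M • x := by
      have h3 : M⁻¹ • f (M • x) = x := hfx
      rw [h3]
    rwa [smul_smul, mul_inv_cancel₀ hM.ne', one_smul] at h2

end Pool.Agent.BRW
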